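import Pool.Agent.W670.LL.Stm

set_option autoImplicit false

/-! Project LL: specialisation is additive outside a finite set. -/

namespace Pool.Agent.W168.LL

open Pool.Agent.W670.LL WeierstrassCurve

section ev

variable {k : Type} [Field k] {L : Type} [Field L] [Algebra k L]

/-- `f` is regular at `x₀` with value `v`. -/
structure Ev (x₀ : L) (f : RatFunc k) (v : L) : Prop where
  reg : Polynomial.aeval x₀ f.denom ≠ 0
  val : f.eval (algebraMap k L) x₀ = v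

theorem Ev.add {x₀ : L} {f g : RatFunc k} {v w : L} (hf : Ev x₀ f v) (hg : Ev x₀ g w) :
    Ev x₀ (f + g) (v + w) := by
  constructor
  · intro h
    obtain ⟨c, hc⟩ := RatFunc.denom_add_dvd f g
    have := congrArg (Polynomial.aeval x₀) hc
    rw [map_mul, map_mul, h, zero_mul] at this
    exact (mul_ne_zero hf.reg hg.reg) this
  · rw [RatFunc.eval_add, hf.val, hg.val]
    · exact hf.reg
    · exact hg.reg

theorem Ev.mul {x₀ : L} {f g : RatFunc k} {v w : L} (hf : Ev x₀ f v) (hg : Ev x₀ g w) :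
    Ev x₀ (f * g) (v * w) := by
  constructor
  · intro h
    obtain ⟨c, hc⟩ := RatFunc.denom_mul_dvd f g
    have := congrArg (Polynomial.aeval x₀) hc
    rw [map_mul, map_mul, h, zero_mul] at this
    exact (mul_ne_zero hf.reg hg.reg) this
  · rw [RatFunc.eval_mul, hf.val, hg.val]
    · exact hf.reg
    · exact hg.reg

theorem Ev.C (x₀ : L) (c : k) : Ev x₀ (RatFunc.C c) (algebraMap k L c) := by
  constructor
  · rw [RatFunc.denom_C, map_one]
    exact one_ne_zero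
  · exact RatFunc.eval_C _ _

theorem Ev.X (x₀ : L) : Ev x₀ (RatFunc.X : RatFunc k) x₀ := by
  constructor
  · rw [RatFunc.denom_X, map_one]
    exact one_ne_zero
  · exact RatFunc.eval_X _ _

theorem Ev.one (x₀ : L) : Ev x₀ (1 : RatFunc k) 1 := by
  have := Ev.C (k := k) x₀ 1
  rwa [map_one, map_one] at this

theorem Ev.ofNat (x₀ : L) (n : ℕ) : Ev x₀ ((n : ℕ) : RatFunc k) ((n : ℕ) : L) := by
  have := Ev.C (k := k) x₀ (n : k)
  rwa [map_natCast, map_natCast] at this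

theorem Ev.neg {x₀ : L} {f : RatFunc k} {v : L} (hf : Ev x₀ f v) : Ev x₀ (-f) (-v) := by
  have := (Ev.C (k := k) x₀ (-1)).mul hf
  rw [map_neg, map_neg, map_one, map_one, neg_one_mul, neg_one_mul] at this
  exact this

theorem Ev.sub {x₀ : L} {f g : RatFunc k} {v w : L} (hf : Ev x₀ f v) (hg : Ev x₀ g w) :
    Ev x₀ (f - g) (v - w) := by
  rw [sub_eq_add_neg, sub_eq_add_neg]
  exact hf.add hg.neg

theorem Ev.pow {x₀ : L} {f : RatFunc k} {v : L} (hf : Ev x₀ f v) (n : ℕ) :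
    Ev x₀ (f ^ n) (v ^ n) := by
  induction n with
  | zero => simpa using Ev.one x₀
  | succ n ih =>
    rw [pow_succ, pow_succ]
    exact ih.mul hf

theorem Ev.uniq {x₀ : L} {f : RatFunc k} {v w : L} (h : Ev x₀ f v) (h' : Ev x₀ f w) : v = w :=
  h.val.symm.trans h'.val

/-- Outside a finite set the function is regular. -/
theorem ev_cof (f : RatFunc k) : ∃ B : Set L, B.Finite ∧ ∀ x₀ ∉ B,
    Ev x₀ f (f.eval (algebraMap k L) x₀) := by
  refine ⟨f.denom.rootSet L, Polynomial.rootSet_finite _ _, fun x₀ hx => ⟨?_, rfl⟩⟩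
  intro h
  exact hx (Polynomial.mem_rootSet.2 ⟨f.denom_ne_zero, h⟩)

/-- Outside a finite set a nonzero function has a nonzero value. -/
theorem ev_ne (f : RatFunc k) (hf : f ≠ 0) : ∃ B : Set L, B.Finite ∧ ∀ x₀ ∉ B, ∀ v,
    Ev x₀ f v → v ≠ 0 := by
  obtain ⟨B, hB, h⟩ := ev_cof (L := L) (f⁻¹)
  refine ⟨B, hB, fun x₀ hx v hv h0 => ?_⟩
  have h1 := hv.mul (h x₀ hx)
  rw [mul_inv_cancel₀ hf, h0, zero_mul] at h1
  exact zero_ne_one (h1.uniq (Ev.one x₀))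

theorem ev_lam (x₀ : L) : Ev x₀ (lam k) (x₀ ^ 3 + 6 * x₀ ^ 2 - 3 * x₀) := by
  unfold lam
  have h6 : Ev x₀ (6 : RatFunc k) (6 : L) := by exact_mod_cast Ev.ofNat (k := k) x₀ 6
  have h3 : Ev x₀ (3 : RatFunc k) (3 : L) := by exact_mod_cast Ev.ofNat (k := k) x₀ 3
  exact (((Ev.X x₀).pow 3).add (h6.mul ((Ev.X x₀).pow 2))).sub (h3.mul (Ev.X x₀))

theorem lam_ne : lam k ≠ 0 := by
  intro h
  have h1 : lam k = algebraMap (Polynomial k) (RatFunc k)
      (Polynomial.X ^ 3 + 6 * Polynomial.X ^ 2 - 3 * Polynomial.X) := by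
    unfold lam
    rw [map_sub, map_add, map_mul, map_mul, map_pow, map_pow, RatFunc.algebraMap_X, map_ofNat,
      map_ofNat]
  rw [h1, map_eq_zero_iff _ (RatFunc.algebraMap_injective k)] at h
  have h2 := congrArg (fun p => Polynomial.coeff p 3) h
  have e6 : (6 : Polynomial k) = Polynomial.C 6 := (map_ofNat Polynomial.C 6).symm
  have e3 : (3 : Polynomial k) = Polynomial.C 3 := (map_ofNat Polynomial.C 3).symm
  simp only [e6, e3, Polynomial.coeff_sub, Polynomial.coeff_add, Polynomial.coeff_X_pow,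
    Polynomial.coeff_C_mul, Polynomial.coeff_X, Polynomial.coeff_zero] at h2
  norm_num at h2

end ev

/-- a specialised nonzero point -/
theorem isSp_some {k : Type} [Field k] {L : Type} [Field L] [Algebra k L] {x₀ y₀ : L}
    {X Y : RatFunc k} {h : (Cv (6 * lam k) (-3 * lam k ^ 2)).Nonsingular (lam k * X) (lam k ^ 2 * Y)}
    {Q : Pt (6 : L) (-3)} (hs : IsSp x₀ y₀ (Affine.Point.some (lam k * X) (lam k ^ 2 * Y) h : Gp k) Q) :
    ∃ u v h', Ev x₀ X u ∧ Ev x₀ Y v ∧ Q = Affine.Point.some u (y₀ * v) h' := by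
  rcases hs with ⟨h0, _⟩ | ⟨X', Y', h', ⟨h'', e⟩, r1, r2, rfl⟩
  · cases h0
  · have e1 : lam k * X = lam k * X' ∧ lam k ^ 2 * Y = lam k ^ 2 * Y' := by
      simpa using e
    have hX : X = X' := mul_left_cancel₀ lam_ne e1.1
    have hY : Y = Y' := mul_left_cancel₀ (pow_ne_zero 2 lam_ne) e1.2
    subst hX hY
    exact ⟨_, _, h', ⟨r1, rfl⟩, ⟨r2, rfl⟩, rfl⟩

theorem isSp_mk {k : Type} [Field k] {L : Type} [Field L] [Algebra k L] {x₀ y₀ : L}
    {X Y : RatFunc k} {h : (Cv (6 * lam k) (-3 * lam k ^ 2)).Nonsingular (lam k * X) (lam k ^ 2 * Y)}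
    {u v : L} {h' : (Cv (6 : L) (-3)).Nonsingular u (y₀ * v)} (hu : Ev x₀ X u) (hv : Ev x₀ Y v) :
    IsSp x₀ y₀ (Affine.Point.some (lam k * X) (lam k ^ 2 * Y) h : Gp k)
      (Affine.Point.some u (y₀ * v) h') := by
  obtain ⟨r1, rfl⟩ := hu
  obtain ⟨r2, rfl⟩ := hv
  exact Or.inr ⟨X, Y, h', ⟨h, rfl⟩, r1, r2, rfl⟩

theorem sp : S_SP := by
  intro k _ _ L _ _ _ h2 h3 R₁ R₂
  have hlam : lam k ≠ 0 := lam_ne
  have h2L : (2 : L) ≠ 0 := by
    have := (map_ne_zero (algebraMap k L)).2 h2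
    rwa [map_ofNat] at this
  have h2R : (2 : RatFunc k) ≠ 0 := by
    have := (map_ne_zero (algebraMap k (RatFunc k))).2 h2
    rwa [map_ofNat] at this
  rcases R₁ with _ | ⟨x1, y1, h1⟩
  · refine ⟨∅, Set.finite_empty, ?_⟩
    intro x₀ y₀ hy0 _ Q₁ Q₂ s1 s2
    have hQ : Q₁ = 0 := by
      rcases s1 with ⟨_, h⟩ | ⟨X, Y, h, ⟨h', e⟩, _⟩
      · exact h
      · cases e
    change IsSp x₀ y₀ ((0 : Gp k) + R₂) (Q₁ + Q₂)
    rw [hQ, zero_add, zero_add]
    exact s2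
  rcases R₂ with _ | ⟨x2, y2, h2'⟩
  · refine ⟨∅, Set.finite_empty, ?_⟩
    intro x₀ y₀ hy0 _ Q₁ Q₂ s1 s2
    have hQ : Q₂ = 0 := by
      rcases s2 with ⟨_, h⟩ | ⟨X, Y, h, ⟨h', e⟩, _⟩
      · exact h
      · cases e
    change IsSp x₀ y₀ (Affine.Point.some x1 y1 h1 + (0 : Gp k)) (Q₁ + Q₂)
    rw [hQ, add_zero, add_zero]
    exact s1
  obtain ⟨X1, rfl⟩ : ∃ X1, x1 = lam k * X1 := ⟨x1 / lam k, by field_simp⟩
  obtain ⟨Y1, rfl⟩ : ∃ Y1, y1 = lam k ^ 2 * Y1 := ⟨y1 / lam k ^ 2, by field_simp⟩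
  obtain ⟨X2, rfl⟩ : ∃ X2, x2 = lam k * X2 := ⟨x2 / lam k, by field_simp⟩
  obtain ⟨Y2, rfl⟩ : ∃ Y2, y2 = lam k ^ 2 * Y2 := ⟨y2 / lam k ^ 2, by field_simp⟩
  by_cases hX : X1 = X2
  · subst hX
    have e1 := eqn h1
    have e2 := eqn h2'
    have e3 : (Y1 - Y2) * (Y1 + Y2) = 0 := by
      have : lam k ^ 4 * ((Y1 - Y2) * (Y1 + Y2)) = 0 := by linear_combination e1 - e2
      exact (mul_eq_zero.1 this).resolve_left (pow_ne_zero 4 hlam)
    by_cases hYs : Y1 + Y2 = 0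
    · -- opposite points
      refine ⟨∅, Set.finite_empty, ?_⟩
      intro x₀ y₀ hy0 _ Q₁ Q₂ s1 s2
      obtain ⟨u1, v1, n1, hu1, hv1, rfl⟩ := isSp_some s1
      obtain ⟨u2, v2, n2, hu2, hv2, rfl⟩ := isSp_some s2
      have hu : u1 = u2 := hu1.uniq hu2
      subst hu
      have hv : v1 + v2 = 0 := by
        have h := hv1.add hv2
        rw [hYs] at h
        have h0 := Ev.C (k := k) x₀ 0
        rw [map_zero, map_zero] at h0
        exact h.uniq h0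
      left
      constructor
      · apply Affine.Point.add_of_Y_eq rfl
        simp only [Affine.negY]
        linear_combination lam k ^ 2 * hYs
      · apply Affine.Point.add_of_Y_eq rfl
        simp only [Affine.negY]
        linear_combination y₀ * hv
    · -- doubling
      have hY : Y1 = Y2 := by
        rcases mul_eq_zero.1 e3 with h | h
        · exact sub_eq_zero.1 h
        · exact absurd h hYs
      subst hY
      have hY0 : Y1 ≠ 0 := by
        rintro rfl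
        exact hYs (by ring)
      obtain ⟨B1, hB1, H1⟩ := ev_ne (L := L) Y1 hY0
      obtain ⟨B2, hB2, H2⟩ := ev_ne (L := L) (lam k) hlam
      obtain ⟨B3, hB3, H3⟩ := ev_cof (L := L)
        ((3 * X1 ^ 2 + 12 * X1 - 3) / (2 * lam k * Y1))
      refine ⟨B1 ∪ B2 ∪ B3, (hB1.union hB2).union hB3, ?_⟩
      intro x₀ y₀ hy0 hx₀ Q₁ Q₂ s1 s2
      simp only [Set.mem_union, not_or] at hx₀
      obtain ⟨u1, v1, n1, hu1, hv1, rfl⟩ := isSp_some s1
      obtain ⟨u2, v2, n2, hu2, hv2, rfl⟩ := isSp_some s2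
      have hu : u1 = u2 := hu1.uniq hu2
      have hv : v1 = v2 := hv1.uniq hv2
      subst hu hv
      have hv0 : v1 ≠ 0 := H1 x₀ hx₀.1.1 v1 hv1
      have hl := ev_lam (k := k) x₀
      rw [← hy0] at hl
      have hy00 : y₀ ≠ 0 := by
        have := H2 x₀ hx₀.1.2 _ hl
        intro h
        exact this (by rw [h]; ring)
      obtain ⟨m, hm⟩ : ∃ m, Ev x₀ ((3 * X1 ^ 2 + 12 * X1 - 3) / (2 * lam k * Y1)) m :=
        ⟨_, H3 x₀ hx₀.2⟩
      set M := (3 * X1 ^ 2 + 12 * X1 - 3) / (2 * lam k * Y1) with hM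
      have hM1 : M * (2 * lam k * Y1) = 3 * X1 ^ 2 + 12 * X1 - 3 := by
        rw [hM, div_mul_cancel₀]
        exact mul_ne_zero (mul_ne_zero h2R hlam) hY0
      have h3e : Ev x₀ (3 : RatFunc k) (3 : L) := by exact_mod_cast Ev.ofNat (k := k) x₀ 3
      have h2e : Ev x₀ (2 : RatFunc k) (2 : L) := by exact_mod_cast Ev.ofNat (k := k) x₀ 2
      have h6e : Ev x₀ (6 : RatFunc k) (6 : L) := by exact_mod_cast Ev.ofNat (k := k) x₀ 6
      have h12e : Ev x₀ (12 : RatFunc k) (12 : L) := by exact_mod_cast Ev.ofNat (k := k) x₀ 12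
      have hm1 : m * (2 * y₀ ^ 2 * v1) = 3 * u1 ^ 2 + 12 * u1 - 3 := by
        have t1 := hm.mul ((h2e.mul hl).mul hv1)
        have t2 := ((h3e.mul (hu1.pow 2)).add (h12e.mul hu1)).sub h3e
        rw [hM1] at t1
        exact t1.uniq t2
      obtain ⟨n3, hn3⟩ := dbl_mk h1 h2R (mul_ne_zero (pow_ne_zero 2 hlam) hY0) (lam k * M)
        (lam k * (lam k * M ^ 2 - 6 - 2 * X1))
        (lam k ^ 2 * -(Y1 + M * ((lam k * M ^ 2 - 6 - 2 * X1) - X1)))
        (by linear_combination lam k ^ 2 * hM1) (by ring) (by ring)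
      obtain ⟨n4, hn4⟩ := dbl_mk n1 h2L (mul_ne_zero hy00 hv0) (y₀ * m)
        (y₀ ^ 2 * m ^ 2 - 6 - 2 * u1)
        (y₀ * -(v1 + m * ((y₀ ^ 2 * m ^ 2 - 6 - 2 * u1) - u1)))
        (by linear_combination hm1) (by ring) (by ring)
      rw [hn3, hn4]
      have hX3 := ((hl.mul (hm.pow 2)).sub h6e).sub (h2e.mul hu1)
      exact isSp_mk hX3 ((hv1.add (hm.mul (hX3.sub hu1))).neg)
  · -- different abscissas
    obtain ⟨B1, hB1, H1⟩ := ev_ne (L := L) (X1 - X2) (sub_ne_zero.2 hX)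
    obtain ⟨B2, hB2, H2⟩ := ev_cof (L := L) ((Y1 - Y2) / (X1 - X2))
    refine ⟨B1 ∪ B2, hB1.union hB2, ?_⟩
    intro x₀ y₀ hy0 hx₀ Q₁ Q₂ s1 s2
    simp only [Set.mem_union, not_or] at hx₀
    obtain ⟨u1, v1, n1, hu1, hv1, rfl⟩ := isSp_some s1
    obtain ⟨u2, v2, n2, hu2, hv2, rfl⟩ := isSp_some s2
    have hl := ev_lam (k := k) x₀
    rw [← hy0] at hl
    obtain ⟨m, hm⟩ : ∃ m, Ev x₀ ((Y1 - Y2) / (X1 - X2)) m := ⟨_, H2 x₀ hx₀.2⟩
    set M := (Y1 - Y2) / (X1 - X2) with hM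
    have hM1 : M * (X1 - X2) = Y1 - Y2 := by
      rw [hM, div_mul_cancel₀]
      exact sub_ne_zero.2 hX
    have hne : u1 ≠ u2 := sub_ne_zero.1 (H1 x₀ hx₀.1 _ (hu1.sub hu2))
    have hm1 : m * (u1 - u2) = v1 - v2 := by
      have t1 := hm.mul (hu1.sub hu2)
      rw [hM1] at t1
      exact t1.uniq (hv1.sub hv2)
    have h6e : Ev x₀ (6 : RatFunc k) (6 : L) := by exact_mod_cast Ev.ofNat (k := k) x₀ 6
    obtain ⟨n3, hn3⟩ := add_mk h1 h2' (fun h => hX (mul_left_cancel₀ hlam h)) (lam k * M)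
      (lam k * (lam k * M ^ 2 - 6 - X1 - X2))
      (lam k ^ 2 * -(Y1 + M * ((lam k * M ^ 2 - 6 - X1 - X2) - X1)))
      (by linear_combination lam k ^ 2 * hM1) (by ring) (by ring)
    obtain ⟨n4, hn4⟩ := add_mk n1 n2 hne (y₀ * m)
      (y₀ ^ 2 * m ^ 2 - 6 - u1 - u2)
      (y₀ * -(v1 + m * ((y₀ ^ 2 * m ^ 2 - 6 - u1 - u2) - u1)))
      (by linear_combination y₀ * hm1) (by ring) (by ring)
    rw [hn3, hn4]
    have hX3 := (((hl.mul (hm.pow 2)).sub h6e).sub hu1).sub hu2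
    exact isSp_mk hX3 ((hv1.add (hm.mul (hX3.sub hu1))).neg)

end Pool.Agent.W168.LL
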